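import Pool.Agent.Lib_MP_75b583_ins.Core

/-!
# Almost linear expansion does not bound the asymptotic dimension

There is one class of finite graphs whose expansion is at most `C (r + 1) ^ (1 + ε)` for every
`ε > 0` (with `C` depending on `ε`) and which has no finite asymptotic dimension; for every `n` one
single scale `r` already excludes asymptotic dimension at most `n`.
-/

namespace Pool.Agent.Results.MP_75b583_co.AlmostLinearExpansion

open Pool.Agent.CoarseExp

theorem result : ∃ 𝒢 : GraphClass,
    (∀ ε : ℝ, 0 < ε → ∃ C : ℝ, ExpansionAtMost 𝒢 fun r => C * ((r : ℝ) + 1) ^ (1 + ε)) ∧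
    (∀ n : ℕ, ¬ AsdimAtMost 𝒢 n) ∧
    ∀ n : ℕ, ∃ r : ℝ, 0 < r ∧ ∀ D : ℝ, ∃ G ∈ 𝒢, ¬ Covered G.2 n r D :=
  ⟨witness, fun _ hε => witness_expansion hε, fun n => not_asdim_of (witness_not_covered n),
    witness_not_covered⟩

end Pool.Agent.Results.MP_75b583_co.AlmostLinearExpansion
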